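import Pool.Agent.H36.ENR.Stmts2

/-!
Board enr (MP_d15c96_al), row FUU.
-/

set_option autoImplicit false

namespace Pool.ENR

open Pool.Agent.H81.ENG Pool.Agent.H55.NEU

open scoped Pointwise in
theorem fuu_thm (hFXY : FXYStmt) : FUUStmt := by
  intro F _ _ p r f N hr σ hp hf hq hcard hσ
  obtain ⟨P, hP⟩ := hFXY (PS F) p r N σ hp hr.out hσ hcard
  obtain ⟨U, hU⟩ := sylow_of_card hf hq (UU F) card_UU
  obtain ⟨h, hh⟩ := MulAction.exists_smul_eq (PS F) P U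
  refine ⟨h, ?_⟩
  have hmem : ∀ x, x ∈ UU F ↔ h⁻¹ * x * h ∈ P := by
    intro x
    rw [← hU, ← hh, Sylow.coe_subgroup_smul, Subgroup.mem_pointwise_smul_iff_inv_smul_mem]
    have e : (MulAut.conj h)⁻¹ • x = h⁻¹ * x * h := by
      rw [MulAut.smul_def, MulAut.conj_inv_apply]
    rw [e]
    rfl
  intro x
  have e : h⁻¹ * ((MulAut.conj h * σ * (MulAut.conj h)⁻¹) x) * h = σ (h⁻¹ * x * h) := by
    rw [MulAut.mul_apply, MulAut.mul_apply, MulAut.conj_inv_apply, MulAut.conj_apply]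
    group
  rw [hmem, hmem, e, ← hP]

end Pool.ENR
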